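import Pool.Agent.Helper9.PP.Basic
import Pool.Agent.Helper9.FJ.Num

/-!
Project PP (helper9): the numerical part and the main theorem.
-/

set_option autoImplicit false
set_option linter.unusedSectionVars false

namespace Pool.Agent.Helper9.PP

open FF Module MvPolynomial Pool.Agent.Helper9.FJ

variable {K : Type} [Field K] [Algebra ℂ K] [IsFF ℂ K] {l : ℕ} {r : Fin l → ℕ}

theorem slope_det (E : ∀ j, Bundle K (r j)) (hr : ∀ j, 0 < r j) {μ : Fin l → ℝ}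
    (hμ : ∀ j, SL (toBn (E j)) (μ j)) (j : Fin l) : μ j * r j ≤ ddeg (E j).detDiv :=
  hμ j (r j) 1 _ (hr j) (quot_one (E j))

theorem mainM (va : S_VA) (hr : ∀ j, 2 ≤ r j) (E : ∀ j, Bundle K (r j)) {W : Place ℂ K →₀ ℤ}
    (hW : IsCanonical W) {n : ℕ} (hn : 0 < n) (hm : ∀ j, r j ≤ n) (a : Fin (n + 2) → Fin l → ℕ)
    (b : Fin (n + 2) → (Place ℂ K →₀ ℤ)) (μ : Fin l → ℝ) (hμ : ∀ j, SL (toBn (E j)) (μ j))
    (hA : ∀ i, (∀ j, 0 < a i j) ∧ 0 < ∑ j, a i j * μ j + ddeg (b i)) (c : Fin l → ℕ)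
    (hc : ∀ j, c j + r j = ∑ i, a i j) :
    VeryAmpleM E c (W + ∑ j, (E j).detDiv + ∑ i, b i) := by
  classical
  have hr0 : ∀ j, 0 < r j := fun j => by have := hr j; omega
  have hsum : ∀ j, r j ≤ ∑ i : Fin n, a i.succ.succ j := by
    intro j
    have h1 : ∑ i : Fin n, 1 ≤ ∑ i : Fin n, a i.succ.succ j :=
      Finset.sum_le_sum fun i _ => (hA _).1 j
    rw [Finset.sum_const, Finset.card_univ, Fintype.card_fin, smul_eq_mul, mul_one] at h1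
    exact (hm j).trans h1
  obtain ⟨a3, ha3⟩ : ∃ a3 : Fin l → ℕ, ∀ j, a3 j + r j = ∑ i : Fin n, a i.succ.succ j :=
    ⟨fun j => ∑ i : Fin n, a i.succ.succ j - r j, fun j => Nat.sub_add_cancel (hsum j)⟩
  have hsplit : ∀ {M : Type} [AddCommMonoid M] (f : Fin (n + 2) → M),
      ∑ i, f i = f 0 + (f (Fin.succ 0) + ∑ i : Fin n, f i.succ.succ) := by
    intro M _ f
    rw [Fin.sum_univ_succ, Fin.sum_univ_succ]
  have hc' : c = a 0 + a (Fin.succ 0) + a3 := by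
    funext j
    have h1 := hc j
    rw [hsplit] at h1
    have h2 := ha3 j
    rw [Pi.add_apply, Pi.add_apply]
    omega
  obtain ⟨b3, hb3⟩ : ∃ b3, b3 = W + ∑ j, (E j).detDiv + ∑ i : Fin n, b i.succ.succ := ⟨_, rfl⟩
  have hb : W + ∑ j, (E j).detDiv + ∑ i, b i = b 0 + b (Fin.succ 0) + b3 := by
    rw [hsplit, hb3]
    abel
  rw [hc', hb]
  refine va hW E μ hr0 hμ (a 0) (a (Fin.succ 0)) a3 (b 0) (b (Fin.succ 0)) b3 (hA _).1 (hA _).1
    (hA _).2 (hA _).2 ?_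
  have h1 : (ddeg b3 : ℝ) = ddeg W + ∑ j, (ddeg (E j).detDiv : ℝ) +
      ∑ i : Fin n, (ddeg (b i.succ.succ) : ℝ) := by
    rw [hb3, ddeg_add, ddeg_add, ddeg_sum, ddeg_sum]
    push_cast
    rfl
  have h2 : ∑ j, (a3 j : ℝ) * μ j = ∑ i : Fin n, ∑ j, (a i.succ.succ j : ℝ) * μ j -
      ∑ j, (r j : ℝ) * μ j := by
    rw [Finset.sum_comm, ← Finset.sum_sub_distrib]
    refine Finset.sum_congr rfl fun j _ => ?_
    have h3 : (a3 j : ℝ) + r j = ∑ i : Fin n, (a i.succ.succ j : ℝ) := by exact_mod_cast ha3 j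
    rw [← Finset.sum_mul, ← h3]
    ring
  have h3 : ∑ j, (r j : ℝ) * μ j ≤ ∑ j, (ddeg (E j).detDiv : ℝ) := by
    refine Finset.sum_le_sum fun j _ => ?_
    rw [mul_comm]
    exact slope_det E hr0 hμ j
  have h4 : 0 < ∑ i : Fin n, (∑ j, (a i.succ.succ j : ℝ) * μ j + ddeg (b i.succ.succ)) :=
    Finset.sum_pos (fun i _ => (hA _).2) ⟨⟨0, hn⟩, Finset.mem_univ _⟩
  rw [Finset.sum_add_distrib] at h4
  rw [h1, h2]
  linarith

end Pool.Agent.Helper9.PP
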