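import Pool.Agent.Helper9.PP.Stm
import Pool.Agent.Helper9.FJ.Slope

/-!
Project PP (helper9): basic facts on bundles with an arbitrary index set.
-/

set_option autoImplicit false
set_option linter.unusedSectionVars false

namespace Pool.Agent.Helper9.PP

open FF Module MvPolynomial Pool.Agent.Helper9.FJ

variable {K : Type} [Field K] [Algebra ℂ K] {ι : Type} [Fintype ι] [DecidableEq ι]

/-- reindexing -/
def Bn.toFin (F : Bn K ι) {n : ℕ} (e : ι ≃ Fin n) : Bundle K n where
  B P := (F.B P).submatrix e.symm e.symm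
  det_ne P := by
    rw [Matrix.det_submatrix_equiv_self]
    exact F.det_ne P
  fin := F.fin.subset fun P hP h => hP (by
    rw [h, Matrix.submatrix_one_equiv])

theorem isQt_toFin (F : Bn K ι) {n : ℕ} (e : ι ≃ Fin n) {ρ : ℕ} {Λ : Matrix (Fin n) (Fin ρ) K}
    {d : Place ℂ K →₀ ℤ} (h : IsQuot (F.toFin e) Λ d) : IsQt F (Λ.submatrix e id) d := by
  have h1 : ∀ P, (F.toFin e).B P * Λ = (F.B P * Λ.submatrix e id).submatrix e.symm id := by
    intro P
    ext i j
    change ∑ x, (F.B P) (e.symm i) (e.symm x) * Λ x j = ∑ x, (F.B P) (e.symm i) x * Λ (e x) j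
    rw [← Equiv.sum_comp e]
    simp
  intro P
  refine ⟨fun S => ?_, ?_⟩
  · have h2 := (h P).1 (e ∘ S)
    rw [h1] at h2
    have h3 : ((F.B P * Λ.submatrix e id).submatrix e.symm id).submatrix (e ∘ S) id =
        (F.B P * Λ.submatrix e id).submatrix S id := by
      ext i j
      simp [Matrix.submatrix_apply]
    rwa [h3] at h2
  · obtain ⟨S, hS⟩ := (h P).2
    refine ⟨e.symm ∘ S, ?_⟩
    rw [h1] at hS
    exact hS

/-- quotients exist -/
theorem exists_qt [IsFF ℂ K] {ρ : ℕ} (F : Bn K ι) {Λ : Matrix ι (Fin ρ) K}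
    {Y : Matrix (Fin ρ) ι K} (hY : Y * Λ = 1) : ∃ d, IsQt F Λ d := by
  let e := Fintype.equivFin ι
  obtain ⟨d, hd⟩ := exists_quot (F.toFin e) (Λ := Λ.submatrix e.symm id)
    (Y := Y.submatrix id e.symm) (by
      rw [Matrix.submatrix_mul_equiv, hY]
      exact Matrix.submatrix_id_id _)
  refine ⟨d, ?_⟩
  have h1 := isQt_toFin F e hd
  have h2 : (Λ.submatrix e.symm id).submatrix e id = Λ := by
    ext i j
    simp
  rwa [h2] at h1

/-- **The slope inequality** for multilinear forms (characteristic zero), with an arbitrary set of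
slots. -/
theorem slopeS [IsFF ℂ K] {σ : Type} [Fintype σ] [Nonempty ι] (F : Bn K ι) (μ : ℝ) (hμ : SL F μ)
    (T : MultilinearMap K (fun _ : σ => ι → K) K) (hT : T ≠ 0) (c : Place ℂ K →₀ ℤ)
    (hc : ∀ P, ∀ J : σ → ι, Ge P (-c P) (T (fun k => F.B P (J k)))) :
    μ * Fintype.card σ ≤ ddeg c := by
  classical
  let e := Fintype.equivFin ι
  let g := Fintype.equivFin σ
  have hn : 0 < Fintype.card ι := Fintype.card_pos
  let Φ : (Fin (Fintype.card ι) → K) ≃ₗ[K] (ι → K) := LinearEquiv.funCongrLeft K K e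
  have hΦ : ∀ x i, Φ x i = x (e i) := fun _ _ => rfl
  let T' : MultilinearMap K (fun _ : Fin (Fintype.card σ) => Fin (Fintype.card ι) → K) K :=
    (T.compLinearMap fun _ => Φ.toLinearMap).domDomCongr g
  have hT' : ∀ v, T' v = T fun k => Φ (v (g k)) := fun _ => rfl
  refine slope hn (F.toFin e) μ (fun ρ Λ d hρ hd => hμ ρ _ d hρ (isQt_toFin F e hd)) T' ?_ c ?_
  · intro h0
    apply hT
    refine MultilinearMap.ext fun v => ?_
    have h1 : T' (fun k => Φ.symm (v (g.symm k))) = 0 := by rw [h0]; rfl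
    rw [hT'] at h1
    simpa using h1
  · intro P J
    rw [hT']
    have h1 := hc P (fun k => e.symm (J (g k)))
    convert h1 using 3
    funext i
    rw [hΦ]
    change (F.B P) (e.symm (J (g _))) (e.symm (e i)) = _
    rw [Equiv.symm_apply_apply]

end Pool.Agent.Helper9.PP
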