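import Pool.Agent.Helper9.PP.Ten

/-!
Project PP (helper9): package WRD.
-/

set_option autoImplicit false
set_option linter.unusedSectionVars false

namespace Pool.Agent.Helper9.PP

open FF Module Pool.Agent.Helper9.FJ
open scoped Kronecker

/-- reindexing -/
def Bn.re {K : Type} [Field K] [Algebra ℂ K] {ι κ : Type} [Fintype ι] [DecidableEq ι] [Fintype κ]
    [DecidableEq κ] (F : Bn K ι) (e : ι ≃ κ) : Bn K κ where
  B P := (F.B P).submatrix e.symm e.symm
  det_ne P := by
    rw [Matrix.det_submatrix_equiv_self]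
    exact F.det_ne P
  fin := F.fin.subset fun P hP h => hP (by
    rw [h, Matrix.submatrix_one_equiv])

theorem SL.re {K : Type} [Field K] [Algebra ℂ K] [IsFF ℂ K] {ι κ : Type} [Fintype ι]
    [DecidableEq ι] [Fintype κ] [DecidableEq κ] {F : Bn K ι} {μ : ℝ} (h : SL F μ) (e : ι ≃ κ) :
    SL (F.re e) μ := by
  intro ρ Λ d hρ hd
  refine h ρ (Λ.submatrix e id) d hρ fun P => ?_
  have h1 : (F.re e).B P * Λ = (F.B P * Λ.submatrix e id).submatrix e.symm id := by
    ext i j
    change ∑ x, (F.B P) (e.symm i) (e.symm x) * Λ x j = ∑ x, (F.B P) (e.symm i) x * Λ (e x) j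
    rw [← Equiv.sum_comp e]
    simp
  refine ⟨fun S => ?_, ?_⟩
  · have h2 := (hd P).1 (e ∘ S)
    rw [h1] at h2
    have h3 : ((F.B P * Λ.submatrix e id).submatrix e.symm id).submatrix (e ∘ S) id =
        (F.B P * Λ.submatrix e id).submatrix S id := by
      ext i j
      simp [Matrix.submatrix_apply]
    rwa [h3] at h2
  · obtain ⟨S, hS⟩ := (hd P).2
    refine ⟨e.symm ∘ S, ?_⟩
    rw [h1] at hS
    exact hS

/-- **Package WRD.** -/
theorem wrd : S_WRD := by
  classical
  intro K _ _ _ l r E μ hr hμ N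
  induction N with
  | zero =>
    intro t
    obtain ⟨H, hH, hH'⟩ := pow' (ι := Unit) (K := K)
      ⟨fun _ => 1, fun _ => by rw [Matrix.det_one]; exact one_ne_zero, by simp⟩ 0 inferInstance (by
      intro ρ Λ d hρ hd
      obtain ⟨P0, -⟩ := exists_place (k := ℂ) (K := K)
      obtain ⟨S0, hS0, -⟩ := (hd P0).2
      have hρ1 : ρ = 1 := by
        by_contra hne
        apply hS0
        exact Matrix.det_zero_of_row_eq (i := ⟨0, hρ⟩) (j := ⟨1, by omega⟩) (by
          intro h
          have := congrArg Fin.val h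
          exact zero_ne_one this) (by
          funext x
          rfl)
      subst hρ1
      have h1 : ∀ (S : Fin 1 → Unit), (((1 : Matrix Unit Unit K) * Λ).submatrix S id).det =
          Λ () 0 := by
        intro S
        rw [Matrix.one_mul, Matrix.det_unique]
        rfl
      have h2 : d = -divisor ℂ (Λ () 0) := by
        ext P
        obtain ⟨S, hS, hSd⟩ := (hd P).2
        rw [Finsupp.neg_apply, divisor_apply]
        have h3 : P.ord (((1 : Matrix Unit Unit K) * Λ).submatrix S id).det = -d P := hSd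
        rw [h1] at h3
        omega
      rw [h2, ddeg_neg, ddeg_divisor]
      simp) 0
    let e : (Fin 0 → Unit) ≃ (∀ k : Fin 0, Fin (r (t k))) :=
      ⟨fun _ k => k.elim0, fun _ k => k.elim0, fun _ => funext fun k => k.elim0,
        fun _ => funext fun k => k.elim0⟩
    refine ⟨H.re e, fun P I J => ?_, ?_⟩
    · change H.B P _ _ = _
      rw [hH]
      simp
    · have := hH'.re e
      simpa using this
  | succ N ih =>
    intro t
    obtain ⟨G, hG, hG'⟩ := ih fun k => t k.succ
    have h1 : Nonempty (Fin (r (t 0))) := ⟨⟨0, hr _⟩⟩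
    have h2 : Nonempty (∀ k : Fin N, Fin (r (t k.succ))) := ⟨fun k => ⟨0, hr _⟩⟩
    obtain ⟨H, hH, hH'⟩ := ten (toBn (E (t 0))) G (μ (t 0)) _ h1 h2 (hμ _) hG'
    let e : (Fin (r (t 0)) × ∀ k : Fin N, Fin (r (t k.succ))) ≃ (∀ k : Fin (N + 1), Fin (r (t k))) :=
      Fin.consEquiv fun k => Fin (r (t k))
    refine ⟨H.re e, fun P I J => ?_, ?_⟩
    · change H.B P (e.symm I) (e.symm J) = _
      rw [hH, Matrix.kroneckerMap_apply, hG, Fin.prod_univ_succ]
      rfl
    · rw [Fin.sum_univ_succ]
      exact hH'.re e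

end Pool.Agent.Helper9.PP
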