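import Pool.Agent.Helper9.PP.Basic
import Pool.Agent.Helper9.FJ.Key

/-!
Project PP (helper9): package BIL.
-/

set_option autoImplicit false
set_option linter.unusedSectionVars false

namespace Pool.Agent.Helper9.PP

open FF Module Pool.Agent.Helper9.FJ

/-- rank factorisation -/
theorem rank_fact {F : Type} [Field F] {ι κ : Type} [Fintype ι] [DecidableEq ι] [Fintype κ]
    [DecidableEq κ] (T : Matrix ι κ F) (hT : T ≠ 0) :
    ∃ (ρ : ℕ) (Λ : Matrix ι (Fin ρ) F) (M : Matrix κ (Fin ρ) F) (Y : Matrix (Fin ρ) ι F)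
      (Y' : Matrix (Fin ρ) κ F), 0 < ρ ∧ T = Λ * M.transpose ∧ Y * Λ = 1 ∧ Y' * M = 1 := by
  classical
  obtain ⟨f, hf⟩ : ∃ f : (κ → F) →ₗ[F] (ι → F), f = T.mulVecLin := ⟨_, rfl⟩
  let b := Module.finBasis F (LinearMap.range f)
  obtain ⟨ρ, hρ⟩ : ∃ ρ, ρ = Module.finrank F (LinearMap.range f) := ⟨_, rfl⟩
  let L : (Fin (Module.finrank F (LinearMap.range f)) → F) →ₗ[F] (ι → F) :=
    (LinearMap.range f).subtype.comp b.equivFun.symm.toLinearMap
  have hL : LinearMap.ker L = ⊥ := by
    rw [LinearMap.ker_eq_bot]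
    exact (Submodule.injective_subtype _).comp b.equivFun.symm.injective
  let N : (κ → F) →ₗ[F] (Fin (Module.finrank F (LinearMap.range f)) → F) :=
    b.equivFun.toLinearMap.comp f.rangeRestrict
  have hN : LinearMap.range N = ⊤ := by
    rw [LinearMap.range_eq_top]
    exact b.equivFun.surjective.comp f.surjective_rangeRestrict
  obtain ⟨g, hg⟩ := L.exists_leftInverse_of_injective hL
  obtain ⟨h, hh⟩ := N.exists_rightInverse_of_surjective hN
  have hLN : L.comp N = f := by
    ext x i
    simp [L, N]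
  refine ⟨_, LinearMap.toMatrix' L, (LinearMap.toMatrix' N).transpose, LinearMap.toMatrix' g,
    (LinearMap.toMatrix' h).transpose, ?_, ?_, ?_, ?_⟩
  · rw [Module.finrank_pos_iff_exists_ne_zero]
    by_contra hcon
    push Not at hcon
    apply hT
    have h1 : f = 0 := by
      ext x i
      have := congrArg Subtype.val (hcon (f.rangeRestrict (Pi.single x 1)))
      exact congrFun this i
    rw [hf] at h1
    have h2 : LinearMap.toMatrix' T.mulVecLin = T := by
      rw [← Matrix.toLin'_apply', LinearMap.toMatrix'_toLin']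
    rw [← h2, h1, map_zero]
  · rw [Matrix.transpose_transpose, ← LinearMap.toMatrix'_comp, hLN, hf]
    rw [← Matrix.toLin'_apply', LinearMap.toMatrix'_toLin']
  · rw [← LinearMap.toMatrix'_comp, hg]
    exact LinearMap.toMatrix'_id
  · rw [← Matrix.transpose_mul, ← LinearMap.toMatrix'_comp, hh, LinearMap.toMatrix'_id,
      Matrix.transpose_one]

/-- **Package BIL.** -/
theorem bil : S_BIL := by
  classical
  intro K _ _ _ ι κ _ _ _ _ F G μ ν hF hG T hT c hc
  obtain ⟨ρ, Λ, M, Y, Y', hρ, hTM, hY, hY'⟩ := rank_fact T hT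
  obtain ⟨d1, hd1⟩ := exists_qt F hY
  obtain ⟨d2, hd2⟩ := exists_qt G hY'
  have h1 := hF ρ Λ d1 hρ hd1
  have h2 := hG ρ M d2 hρ hd2
  have h3 : d1 + d2 ≤ ρ • c := by
    intro P
    obtain ⟨S1, hS1, ho1⟩ := (hd1 P).2
    obtain ⟨S2, hS2, ho2⟩ := (hd2 P).2
    have h4 : ((F.B P * T * (G.B P).transpose).submatrix S1 S2).det =
        ((F.B P * Λ).submatrix S1 id).det * ((G.B P * M).submatrix S2 id).det := by
      have h5 : (F.B P * T * (G.B P).transpose).submatrix S1 S2 =
          (F.B P * Λ).submatrix S1 id * (((G.B P * M).submatrix S2 id).transpose) := by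
        have h6 : F.B P * T * (G.B P).transpose = (F.B P * Λ) * (G.B P * M).transpose := by
          rw [hTM, Matrix.transpose_mul]
          simp only [Matrix.mul_assoc]
        rw [h6]
        ext i j
        simp [Matrix.mul_apply]
      rw [h5, Matrix.det_mul, Matrix.det_transpose]
    have h5 : Ge P (ρ * (-c P)) ((F.B P * T * (G.B P).transpose).submatrix S1 S2).det := by
      have h6 := ge_det_rc (P := P) (M := (F.B P * T * (G.B P).transpose).submatrix S1 S2)
        (a := fun _ => -c P) (b := fun _ => 0) (fun i j => by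
          beta_reduce
          rw [add_zero]
          exact hc P _ _)
      rw [Finset.sum_const, Finset.sum_const_zero, Finset.card_univ, Fintype.card_fin,
        nsmul_eq_mul, add_zero] at h6
      exact h6
    rw [h4, ge_iff (mul_ne_zero hS1 hS2), P.ord_mul hS1 hS2, ho1, ho2] at h5
    rw [Finsupp.add_apply, Finsupp.smul_apply, nsmul_eq_mul]
    have h7 : (ρ : ℤ) * (-c P) = -(ρ * c P) := by ring
    rw [h7] at h5
    change d1 P + d2 P ≤ _
    linarith
  have h4 := ddeg_mono h3
  rw [ddeg_add, ddeg_nsmul] at h4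
  have h5 : (ddeg d1 : ℝ) + ddeg d2 ≤ ρ * ddeg c := by exact_mod_cast h4
  have hρR : (0 : ℝ) < ρ := by exact_mod_cast hρ
  refine le_of_mul_le_mul_left ?_ hρR
  linarith

end Pool.Agent.Helper9.PP
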