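import Pool.Agent.Helper9.FJ.Defs

/-!
Fibre products of projective bundles over curves, line bundles on them, and very ampleness.
-/

set_option autoImplicit false

namespace Pool.Agent.Helper9.PP

open FF Module MvPolynomial Pool.Agent.Helper9.FJ

variable {K : Type} [Field K] [Algebra ℂ K] {l : ℕ} {r : Fin l → ℕ}

/-- The variables of `l` groups with `r j` variables in the group `j`. -/
abbrev Vr {l : ℕ} (r : Fin l → ℕ) : Type := Σ j, Fin (r j)

/-- `s` is homogeneous of degree `a j` in the variables of the group `j`, for all `j`. -/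
def IsMh (a : Fin l → ℕ) (s : MvPolynomial (Vr r) K) : Prop :=
  ∀ α, coeff α s ≠ 0 → ∀ j, ∑ i, α ⟨j, i⟩ = a j

/-- A polynomial `s` over `K` in the variables `Vr r` is an element of the tensor product of the
symmetric algebras of the generic fibres `K^(r j)` of the bundles `E j` (the variables of the group
`j` are the unit vectors of `K^(r j)`).  This is `s` as a polynomial in the rows of the matrices
`(E j).B P`, the bases of the stalks of the bundles at `P`. -/
noncomputable def locM (E : ∀ j, Bundle K (r j)) (P : Place ℂ K) (s : MvPolynomial (Vr r) K) :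
    MvPolynomial (Vr r) K :=
  aeval (fun x : Vr r => ∑ i, C (((E x.1).B P)⁻¹ x.2 i) * X ⟨x.1, i⟩) s

/-- `s` is a section of the line bundle `O(a) ⊗ π^* O(N)` on the fibre product `π : X → C` of the
projective bundles `P(E j)`, that is, of the vector bundle `⊗ S^(a j)(E j) ⊗ O(N)` on the
curve `C`. -/
def IsSecM (E : ∀ j, Bundle K (r j)) (a : Fin l → ℕ) (N : Place ℂ K →₀ ℤ)
    (s : MvPolynomial (Vr r) K) : Prop :=
  IsMh a s ∧ ∀ P α, Ge P (-N P) ((locM E P s).coeff α)

/-- The points of `X` above `P` are the families `ξ` of vectors `ξ j ≠ 0` in `ℂ^(r j)` up to scalars,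
see `pt`. -/
noncomputable def ptM (E : ∀ j, Bundle K (r j)) (P : Place ℂ K) (ξ : ∀ j, Fin (r j) → ℂ) :
    Vr r → K :=
  fun x => pt (E x.1) P (ξ x.1) x.2

/-- The sections of the line bundle `O(a) ⊗ π^* O(N)` on `X` have no common zero. -/
def BaseFreeM (E : ∀ j, Bundle K (r j)) (a : Fin l → ℕ) (N : Place ℂ K →₀ ℤ) : Prop :=
  ∀ (P : Place ℂ K) (ξ : ∀ j, Fin (r j) → ℂ), (∀ j, ξ j ≠ 0) →
    ∃ s, IsSecM E a N s ∧ ¬ Ge P (1 - N P) (eval (ptM E P ξ) s)

/-- The sections separate points. -/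
def SepPointsM (E : ∀ j, Bundle K (r j)) (a : Fin l → ℕ) (N : Place ℂ K →₀ ℤ) : Prop :=
  ∀ (P Q : Place ℂ K) (ξ η : ∀ j, Fin (r j) → ℂ), (∀ j, ξ j ≠ 0) → (∀ j, η j ≠ 0) →
    (P = Q → ∃ j, ¬ ∃ c : ℂ, η j = c • ξ j) →
    ∃ s, IsSecM E a N s ∧ Ge P (1 - N P) (eval (ptM E P ξ) s) ∧
      ¬ Ge Q (1 - N Q) (eval (ptM E Q η) s)

/-- The sections separate the tangent vectors which are not vertical: for a section `s` which
vanishes at `(P, ξ)`, the derivative in the direction of the tangent vector `(1, η)` at `(P, ξ)` is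
the coefficient of `t` in `t ^ N(P) s(ptM ξ + t ptM η)`. -/
def SepTransversalM (E : ∀ j, Bundle K (r j)) (a : Fin l → ℕ) (N : Place ℂ K →₀ ℤ) : Prop :=
  ∀ (P : Place ℂ K) (t : K) (ξ η : ∀ j, Fin (r j) → ℂ), P.ord t = 1 → (∀ j, ξ j ≠ 0) →
    ∃ s, IsSecM E a N s ∧ Ge P (1 - N P) (eval (ptM E P ξ) s) ∧
      ¬ Ge P (2 - N P) (eval (ptM E P ξ + t • ptM E P η) s)

/-- The sections separate the vertical tangent vectors: for a section `s` which vanishes at
`(P, ξ)`, the derivative in the direction of the vertical tangent vector `(0, η)`, where some `η j`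
is not proportional to `ξ j`, is the value at `P` of `t ^ N(P) ∑ (ptM η)_x (∂ s / ∂ X_x)(ptM ξ)`. -/
def SepVerticalM (E : ∀ j, Bundle K (r j)) (a : Fin l → ℕ) (N : Place ℂ K →₀ ℤ) : Prop :=
  ∀ (P : Place ℂ K) (ξ η : ∀ j, Fin (r j) → ℂ), (∀ j, ξ j ≠ 0) →
    (∃ j, ¬ ∃ c : ℂ, η j = c • ξ j) →
    ∃ s, IsSecM E a N s ∧ Ge P (1 - N P) (eval (ptM E P ξ) s) ∧
      ¬ Ge P (1 - N P) (∑ x, ptM E P η x * eval (ptM E P ξ) (pderiv x s))

/-- The line bundle `O(a) ⊗ π^* O(N)` on `X` is very ample: its sections have no common zero, and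
they separate points and tangent vectors. -/
def VeryAmpleM (E : ∀ j, Bundle K (r j)) (a : Fin l → ℕ) (N : Place ℂ K →₀ ℤ) : Prop :=
  BaseFreeM E a N ∧ SepPointsM E a N ∧ SepTransversalM E a N ∧ SepVerticalM E a N

/-- The line bundle `O(a) ⊗ π^* O(b)` on `X` is ample. -/
def IsAmpleM (E : ∀ j, Bundle K (r j)) (a : Fin l → ℕ) (b : Place ℂ K →₀ ℤ) : Prop :=
  ∃ M : ℕ, 0 < M ∧ VeryAmpleM E (M • a) (M • b)

end Pool.Agent.Helper9.PP
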