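import Pool.Agent.Helper9.PP.Ten
import Pool.Agent.Helper90.FJ.Ample

/-!
Project PP (helper9): package MIN.
-/

set_option autoImplicit false
set_option linter.unusedSectionVars false

namespace Pool.Agent.Helper9.PP

open FF Module Pool.Agent.Helper9.FJ

/-- a left inverse of the matrix of a quotient -/
theorem exists_left {F : Type} [Field F] {ι : Type} [Fintype ι] [DecidableEq ι] {ρ : ℕ}
    {B : Matrix ι ι F} {Λ : Matrix ι (Fin ρ) F} {S : Fin ρ → ι}
    (h : ((B * Λ).submatrix S id).det ≠ 0) : ∃ Y : Matrix (Fin ρ) ι F, Y * Λ = 1 := by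
  refine ⟨((B * Λ).submatrix S id)⁻¹ * B.submatrix S id, ?_⟩
  have h1 : B.submatrix S id * Λ = (B * Λ).submatrix S id := by
    ext i j
    simp [Matrix.mul_apply]
  rw [Matrix.mul_assoc, h1, Matrix.nonsing_inv_mul _ (isUnit_iff_ne_zero.2 h)]

variable {K : Type} [Field K] [Algebra ℂ K] [IsFF ℂ K]

/-- the slopes are bounded below -/
theorem slope_bounded {n : ℕ} (E : Bundle K n) : ∃ C : ℤ, ∀ (ρ : ℕ) (Λ : Matrix (Fin n) (Fin ρ) K)
    (d : Place ℂ K →₀ ℤ), IsQuot E Λ d → -(ρ * C) ≤ ddeg d := by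
  classical
  obtain ⟨c, hc⟩ := Pool.Agent.Helper90.FJ.exists_div (B := Fin n × Fin n)
    (fun (P : Place ℂ K) x => (E.B P)⁻¹ x.1 x.2) ⟨fun x => (1 : Matrix (Fin n) (Fin n) K) x.1 x.2,
      E.fin.subset (by
        intro P hP hB
        apply hP
        rw [hB, inv_one])⟩
  refine ⟨ddeg c, fun ρ Λ d hd => ?_⟩
  obtain ⟨P0, -⟩ := exists_place (k := ℂ) (K := K)
  obtain ⟨S0, hS0, -⟩ := (hd P0).2
  obtain ⟨S, hS⟩ : ∃ S : Fin ρ → Fin n, (Λ.submatrix S id).det ≠ 0 := by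
    by_contra hcon
    push Not at hcon
    apply hS0
    have h1 : (E.B P0 * Λ).submatrix S0 id = (E.B P0).submatrix S0 id * Λ := by
      ext i j
      simp [Matrix.mul_apply]
    rw [h1, det_mul_expand', Finset.sum_eq_zero fun S _ => by rw [hcon S, mul_zero]]
  have h1 : ∀ P, Ge P (ρ * (-c P) + -d P) (Λ.submatrix S id).det := by
    intro P
    have h2 : Λ.submatrix S id = ((E.B P)⁻¹).submatrix S id * (E.B P * Λ) := by
      have h3 : Λ = (E.B P)⁻¹ * (E.B P * Λ) := by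
        rw [← Matrix.mul_assoc, Matrix.nonsing_inv_mul _ (isUnit_iff_ne_zero.2 (E.det_ne P)),
          Matrix.one_mul]
      conv_lhs => rw [h3]
      ext i j
      simp [Matrix.mul_apply]
    rw [h2, det_mul_expand']
    refine Ge.sum _ fun S' _ => ?_
    have h4 := (Ge.prod (P := P) Finset.univ (F := fun i => ((E.B P)⁻¹).submatrix S id i (S' i))
      (n := fun _ => -c P) fun i _ => hc P (S i, S' i)).mul ((hd P).1 S')
    rw [Finset.sum_const, Finset.card_univ, Fintype.card_fin, nsmul_eq_mul] at h4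
    exact h4
  have h2 : -(ρ • c) - d ≤ divisor ℂ (Λ.submatrix S id).det := by
    intro P
    have h3 := (ge_iff hS).1 (h1 P)
    rw [divisor_apply]
    change -((ρ • c) P) - d P ≤ _
    rw [Finsupp.smul_apply, nsmul_eq_mul]
    linarith
  have h3 := ddeg_mono h2
  rw [ddeg_divisor, ddeg_sub, ddeg_neg, ddeg_nsmul] at h3
  linarith

/-- **Package MIN.** -/
theorem min' : S_MIN := by
  classical
  intro K _ _ _ n E hn
  obtain ⟨C, hC⟩ := slope_bounded E
  have hle : ∀ {ρ : ℕ} {Λ : Matrix (Fin n) (Fin ρ) K} {d : Place ℂ K →₀ ℤ}, IsQuot E Λ d →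
      ρ ≤ n := by
    intro ρ Λ d hd
    obtain ⟨P0, -⟩ := exists_place (k := ℂ) (K := K)
    obtain ⟨S0, hS0, -⟩ := (hd P0).2
    have h1 : Function.Injective S0 := by
      intro i j hij
      by_contra hne
      exact hS0 (Matrix.det_zero_of_row_eq hne (by
        funext x
        rw [Matrix.submatrix_apply, Matrix.submatrix_apply, hij]))
    have := Fintype.card_le_of_injective _ h1
    simpa using this
  have hdvd : ∀ {ρ : ℕ}, 0 < ρ → ρ ≤ n → (ρ : ℤ) ∣ (n.factorial : ℤ) := by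
    intro ρ h1 h2
    exact_mod_cast Nat.dvd_factorial h1 h2
  have hF : (0 : ℤ) < n.factorial := by exact_mod_cast n.factorial_pos
  obtain ⟨z, ⟨R, Λ, d, hR, hd, hz⟩, hmin⟩ := Int.exists_least_of_bdd
    (P := fun z => ∃ (R : ℕ) (Λ : Matrix (Fin n) (Fin R) K) (d : Place ℂ K →₀ ℤ), 0 < R ∧
      IsQuot E Λ d ∧ z * R = n.factorial * ddeg d) (by
      refine ⟨-(n.factorial * C), ?_⟩
      rintro z ⟨R, Λ, d, hR, hd, hz⟩
      have h1 := hC R Λ d hd
      have hR' : (0 : ℤ) < R := by exact_mod_cast hR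
      have h2 : (n.factorial : ℤ) * (-(R * C)) ≤ n.factorial * ddeg d :=
        mul_le_mul_of_nonneg_left h1 hF.le
      rw [← hz] at h2
      refine le_of_mul_le_mul_right ?_ hR'
      linarith) (by
      obtain ⟨q, hq⟩ := hdvd hn le_rfl
      refine ⟨q * ddeg E.detDiv, n, 1, E.detDiv, hn, quot_one E, ?_⟩
      rw [hq]
      ring)
  obtain ⟨P0, -⟩ := exists_place (k := ℂ) (K := K)
  obtain ⟨S0, hS0, -⟩ := (hd P0).2
  obtain ⟨Y, hY⟩ := exists_left hS0
  refine ⟨R, Λ, Y, d, hR, hY, hd, fun ρ Λ' d' hρ hd' => ?_⟩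
  obtain ⟨q, hq⟩ := hdvd hρ (hle hd')
  have h1 := hmin (q * ddeg d') ⟨ρ, Λ', d', hρ, hd', by rw [hq]; ring⟩
  have hFR : (0 : ℝ) < n.factorial := by exact_mod_cast n.factorial_pos
  have hRR : (0 : ℝ) < R := by exact_mod_cast hR
  have hρR : (0 : ℝ) < ρ := by exact_mod_cast hρ
  have hzR : (z : ℝ) * R = n.factorial * ddeg d := by exact_mod_cast hz
  have hqR : (n.factorial : ℝ) = ρ * q := by exact_mod_cast hq
  have h1R : (z : ℝ) ≤ q * ddeg d' := by exact_mod_cast h1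
  have h2 : (ddeg d / R : ℝ) = z / n.factorial := by
    rw [div_eq_div_iff hRR.ne' hFR.ne']
    linarith
  rw [h2, div_mul_eq_mul_div, div_le_iff₀ hFR, hqR]
  calc (z : ℝ) * ρ ≤ q * ddeg d' * ρ := mul_le_mul_of_nonneg_right h1R hρR.le
    _ = _ := by ring

end Pool.Agent.Helper9.PP
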