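import Pool.Agent.Helper9.PP.Basic
import Pool.Agent.Helper9.FJ.Key

/-!
Project PP (helper9): package POW.
-/

set_option autoImplicit false
set_option linter.unusedSectionVars false

namespace Pool.Agent.Helper9.PP

open FF Module Pool.Agent.Helper9.FJ

/-- the tensor power of a matrix -/
def pw {F : Type} [CommRing F] {ι : Type} (N : ℕ) (B : Matrix ι ι F) :
    Matrix (Fin N → ι) (Fin N → ι) F := Matrix.of fun I J => ∏ k, B (I k) (J k)

theorem pw_mul {F : Type} [CommRing F] {ι : Type} [Fintype ι] [DecidableEq ι] (N : ℕ)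
    (A B : Matrix ι ι F) : pw N (A * B) = pw N A * pw N B := by
  ext I J
  rw [Matrix.mul_apply]
  change ∏ k, (A * B) (I k) (J k) = ∑ L : Fin N → ι, (∏ k, A (I k) (L k)) * ∏ k, B (L k) (J k)
  simp only [Matrix.mul_apply, Finset.prod_univ_sum, Fintype.piFinset_univ,
    Finset.prod_mul_distrib]

theorem pw_one {F : Type} [CommRing F] {ι : Type} [Fintype ι] [DecidableEq ι] (N : ℕ) :
    pw N (1 : Matrix ι ι F) = 1 := by
  ext I J
  change ∏ k, (1 : Matrix ι ι F) (I k) (J k) = _
  simp only [Matrix.one_apply]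
  rw [Finset.prod_ite_zero]
  simp [funext_iff]

/-- **Package POW.** -/
theorem pow' : S_POW := by
  classical
  intro K _ _ _ ι _ _ F μ hι hF N
  let G : Bn K (Fin N → ι) :=
    { B := fun P => pw N (F.B P)
      det_ne := fun P => by
        have h1 : pw N (F.B P) * pw N (F.B P)⁻¹ = 1 := by
          rw [← pw_mul, Matrix.mul_nonsing_inv _ (isUnit_iff_ne_zero.2 (F.det_ne P)), pw_one]
        have h2 := congrArg Matrix.det h1
        rw [Matrix.det_mul, Matrix.det_one] at h2
        exact left_ne_zero_of_mul_eq_one h2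
      fin := F.fin.subset fun P hP h => hP (by
        change pw N (F.B P) = 1
        rw [h, pw_one]) }
  refine ⟨G, fun P I J => rfl, fun ρ Λ d hρ hd => ?_⟩
  let c : MultilinearMap K (fun _ : Fin N => ι → K) (Fin ρ → K) :=
    MultilinearMap.pi fun m => ∑ I : Fin N → ι, Λ I m •
      ((MultilinearMap.mkPiAlgebra K (Fin N) K).compLinearMap fun k => LinearMap.proj (I k))
  have hc : ∀ v m, c v m = ∑ I : Fin N → ι, Λ I m * ∏ k, v k (I k) := by
    intro v m
    change (∑ I : Fin N → ι, Λ I m •
      ((MultilinearMap.mkPiAlgebra K (Fin N) K).compLinearMap fun k =>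
        (LinearMap.proj (I k) : (ι → K) →ₗ[K] K))) v = _
    rw [sum_apply]
    rfl
  have hT : ∀ (P : Place ℂ K) (J : Fin ρ × Fin N → ι),
      detForm c (fun x => F.B P (J x)) =
        ((G.B P * Λ).submatrix (fun i k => J (i, k)) id).det := by
    intro P J
    change (Matrix.of fun i => c (fun l => F.B P (J (i, l)))).det = _
    congr 1
    ext i m
    rw [Matrix.of_apply, hc, Matrix.submatrix_apply, Matrix.mul_apply]
    refine Finset.sum_congr rfl fun I _ => ?_
    rw [mul_comm]
    rfl
  have h1 := slopeS F μ hF (detForm c) ?_ d fun P J => ?_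
  · rw [Fintype.card_prod, Fintype.card_fin, Fintype.card_fin] at h1
    push_cast at h1
    linarith
  · intro h0
    obtain ⟨P, -⟩ := exists_place (k := ℂ) (K := K)
    obtain ⟨S, hS, -⟩ := (hd P).2
    apply hS
    have h2 := hT P (fun x => S x.1 x.2)
    rw [h0] at h2
    exact h2.symm
  · rw [hT]
    exact (hd P).1 _

end Pool.Agent.Helper9.PP
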