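import Pool.Agent.Helper9.PP.Defs
import Mathlib.LinearAlgebra.Matrix.Kronecker

/-!
Project PP (helper9): packages.
-/

set_option autoImplicit false

namespace Pool.Agent.Helper9.PP

open FF Module MvPolynomial Pool.Agent.Helper9.FJ
open scoped Kronecker

/-- vector bundles on the curve, with an arbitrary index set of the basis of the generic fibre -/
structure Bn (K : Type) [Field K] [Algebra ℂ K] (ι : Type) [Fintype ι] [DecidableEq ι] where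
  B : Place ℂ K → Matrix ι ι K
  det_ne : ∀ P, (B P).det ≠ 0
  fin : {P | B P ≠ 1}.Finite

/-- `Bundle` as `Bn` -/
def toBn {K : Type} [Field K] [Algebra ℂ K] {n : ℕ} (E : Bundle K n) : Bn K (Fin n) :=
  ⟨E.B, E.det_ne, E.fin⟩

section

variable {K : Type} [Field K] [Algebra ℂ K] {ι κ : Type} [Fintype ι] [DecidableEq ι] [Fintype κ]
  [DecidableEq κ]

/-- quotients -/
def IsQt (F : Bn K ι) {ρ : ℕ} (Λ : Matrix ι (Fin ρ) K) (d : Place ℂ K →₀ ℤ) : Prop :=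
  ∀ P, (∀ S : Fin ρ → ι, Ge P (-d P) ((F.B P * Λ).submatrix S id).det) ∧
    ∃ S : Fin ρ → ι, ((F.B P * Λ).submatrix S id).det ≠ 0 ∧
      P.ord ((F.B P * Λ).submatrix S id).det = -d P

/-- all quotients have slope at least `μ` -/
def SL [IsFF ℂ K] (F : Bn K ι) (μ : ℝ) : Prop :=
  ∀ (ρ : ℕ) (Λ : Matrix ι (Fin ρ) K) (d : Place ℂ K →₀ ℤ), 0 < ρ → IsQt F Λ d → μ * ρ ≤ ddeg d

/-- the substitution `X_x ↦ ∑ h_x,i X_i` in all groups of variables -/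
noncomputable def psM {l : ℕ} {r R : Fin l → ℕ} (h : ∀ j, Matrix (Fin (r j)) (Fin (R j)) K) :
    MvPolynomial (Vr r) K →ₐ[K] MvPolynomial (Vr R) K :=
  aeval (fun x : Vr r => ∑ i, C (h x.1 x.2 i) * X ⟨x.1, i⟩)

/-- the free variables of the affine chart -/
abbrev Fr {l : ℕ} (R : Fin l → ℕ) : Type := {x : Vr R // (x.2 : ℕ) ≠ 0}

/-- the restriction to the affine chart: the variables with the index `0` become `1` -/
noncomputable def dh {l : ℕ} {R : Fin l → ℕ} :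
    MvPolynomial (Vr R) K →ₐ[K] MvPolynomial (Vr R) K :=
  aeval (fun x : Vr R => if (x.2 : ℕ) = 0 then 1 else X x)

/-- `v0` does not vanish at the base point, and the `v k` have the `1`-jets of the coordinates
(`none`: the uniformizer `t`, `some x`: the coordinate `x`) -/
def JET {l : ℕ} {R : Fin l → ℕ} (P : Place ℂ K) (t : K) (v0 : MvPolynomial (Vr R) K)
    (v : Option (Fr R) → MvPolynomial (Vr R) K) : Prop :=
  Ge P 1 (coeff 0 (dh v0) - 1) ∧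
    (Ge P 2 (coeff 0 (dh (v none)) - t) ∧
      ∀ x : Fr R, Ge P 1 (coeff (Finsupp.single x.1 1) (dh (v none)))) ∧
    ∀ y : Fr R, Ge P 2 (coeff 0 (dh (v (some y)))) ∧
      ∀ x : Fr R, Ge P 1 (coeff (Finsupp.single x.1 1) (dh (v (some y))) - if x = y then 1 else 0)

end

/-- Package BIL: slopes and bilinear forms. (Factor `T = Λ * Mᵀ` with `Λ`, `M` of rank `ρ`, left
inverses; `FJ.exists_quot`; `ρ`-minors.) -/
def S_BIL : Prop := ∀ {K : Type} [Field K] [Algebra ℂ K] [IsFF ℂ K] {ι κ : Type} [Fintype ι]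
    [DecidableEq ι] [Fintype κ] [DecidableEq κ] (F : Bn K ι) (G : Bn K κ) (μ ν : ℝ), SL F μ → SL G ν →
    ∀ (T : Matrix ι κ K), T ≠ 0 → ∀ c : Place ℂ K →₀ ℤ,
    (∀ P i j, Ge P (-c P) ((F.B P * T * (G.B P).transpose) i j)) → μ + ν ≤ ddeg c

/-- Package POW: slopes of tensor powers (from `FJ.slope`). -/
def S_POW : Prop := ∀ {K : Type} [Field K] [Algebra ℂ K] [IsFF ℂ K] {ι : Type} [Fintype ι]
    [DecidableEq ι] (F : Bn K ι) (μ : ℝ), Nonempty ι → SL F μ → ∀ N : ℕ,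
    ∃ G : Bn K (Fin N → ι), (∀ P I J, G.B P I J = ∏ k, F.B P (I k) (J k)) ∧ SL G (N * μ)

/-- Package TEN: slopes of tensor products (from BIL and POW). -/
def S_TEN : Prop := ∀ {K : Type} [Field K] [Algebra ℂ K] [IsFF ℂ K] {ι κ : Type} [Fintype ι]
    [DecidableEq ι] [Fintype κ] [DecidableEq κ] (F : Bn K ι) (G : Bn K κ) (μ ν : ℝ),
    Nonempty ι → Nonempty κ → SL F μ → SL G ν →
    ∃ H : Bn K (ι × κ), (∀ P, H.B P = F.B P ⊗ₖ G.B P) ∧ SL H (μ + ν)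

/-- Package WRD: slopes of products of several bundles (from TEN, by induction). -/
def S_WRD : Prop := ∀ {K : Type} [Field K] [Algebra ℂ K] [IsFF ℂ K] {l : ℕ} {r : Fin l → ℕ}
    (E : ∀ j, Bundle K (r j)) (μ : Fin l → ℝ), (∀ j, 0 < r j) → (∀ j, SL (toBn (E j)) (μ j)) →
    ∀ (N : ℕ) (t : Fin N → Fin l), ∃ H : Bn K (∀ k, Fin (r (t k))),
      (∀ P I J, H.B P I J = ∏ k, (E (t k)).B P (I k) (J k)) ∧ SL H (∑ k, μ (t k))

/-- Package MOD: modifications at a point. -/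
def S_MOD : Prop := ∀ {K : Type} [Field K] [Algebra ℂ K] [IsFF ℂ K] {ι : Type} [Fintype ι]
    [DecidableEq ι] (F : Bn K ι) (β : ℤ) (P1 : Place ℂ K) (z : ι → K),
    (∀ i, Ge P1 0 ((F.B P1).mulVec z i)) →
    (∃ i, (F.B P1).mulVec z i ≠ 0 ∧ P1.ord ((F.B P1).mulVec z i) = 0) →
    (∀ (ρ : ℕ) (Λ : Matrix ι (Fin ρ) K) (d : Place ℂ K →₀ ℤ), 0 < ρ → IsQt F Λ d →
      β * ρ + 1 ≤ ddeg d) →
    ∃ F' : Bn K ι, SL F' β ∧ (∀ P, P ≠ P1 → F'.B P = F.B P) ∧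
      (∀ i, Ge P1 1 ((F'.B P1).mulVec z i)) ∧
      ∃ U : Matrix ι ι K, (∀ i j, Ge P1 0 (U i j)) ∧ F'.B P1 = U * F.B P1

/-- Package OBS: obstructions (the multigraded form of `FJ.obst`). -/
def S_OBS : Prop := ∀ {K : Type} [Field K] [Algebra ℂ K] [IsFF ℂ K] {l : ℕ} {r : Fin l → ℕ}
    {W : Place ℂ K →₀ ℤ}, IsCanonical W → ∀ (E : ∀ j, Bundle K (r j)) (a : Fin l → ℕ)
    (N : Place ℂ K →₀ ℤ) (G : Place ℂ K → AddSubgroup (MvPolynomial (Vr r) K)),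
    (∀ P (c : K) s, P.Reg c → s ∈ G P → C c * s ∈ G P) → ∀ e : Place ℂ K →₀ ℤ, (∀ P, 0 ≤ e P) →
    (∀ P s, (∀ α, Ge P (e P - N P) (coeff α (locM E P s))) → s ∈ G P) →
    ∀ (P0 : Place ℂ K) (s0 : MvPolynomial (Vr r) K), IsMh a s0 →
    (∀ α, Ge P0 (-N P0) (coeff α (locM E P0 s0))) →
    (∀ s, IsSecM E a N s → (∀ P, P ≠ P0 → s ∈ G P) → s - s0 ∉ G P0) →
    ∃ φ : MvPolynomial (Vr r) K →ₗ[K] K,
      (∃ α : Vr r →₀ ℕ, (∀ j, ∑ i, α ⟨j, i⟩ = a j) ∧ φ (monomial α 1) ≠ 0) ∧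
      ∀ P s, IsMh a s → (∀ α, Ge P (-N P) (coeff α (locM E P s))) → s ∈ G P →
        Ge P (-W P) (φ s)

/-- Package CORE: existence of sections (from OBS, WRD, MOD, TEN, BIL). -/
def S_CORE : Prop := ∀ {K : Type} [Field K] [Algebra ℂ K] [IsFF ℂ K] {l : ℕ} {r : Fin l → ℕ}
    {W : Place ℂ K →₀ ℤ}, IsCanonical W → ∀ (E : ∀ j, Bundle K (r j)) (μ : Fin l → ℝ),
    (∀ j, 0 < r j) → (∀ j, SL (toBn (E j)) (μ j)) → ∀ (a1 a2 a3 : Fin l → ℕ)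
    (b1 b2 b3 : Place ℂ K →₀ ℤ), (0 < ∑ j, a1 j * μ j + ddeg b1) →
    (0 < ∑ j, a2 j * μ j + ddeg b2) → ((ddeg W : ℝ) < ∑ j, a3 j * μ j + ddeg b3) →
    ∀ (P1 P2 : Place ℂ K) (ξ1 ξ2 : ∀ j, Fin (r j) → ℂ), (∀ j, ξ1 j ≠ 0) → (∀ j, ξ2 j ≠ 0) →
    ∀ (G : Place ℂ K → AddSubgroup (MvPolynomial (Vr r) K)),
    (∀ P (c : K) s, P.Reg c → s ∈ G P → C c * s ∈ G P) → ∀ e : Place ℂ K →₀ ℤ, (∀ P, 0 ≤ e P) →
    (∀ P s, (∀ α, Ge P (e P - (b1 + b2 + b3) P) (coeff α (locM E P s))) → s ∈ G P) →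
    (∀ P (u : K) x1 x2 x3, IsMh a1 x1 → IsMh a2 x2 → IsMh a3 x3 →
      (∀ α, Ge P 0 (coeff α (locM E P x1))) → (∀ α, Ge P 0 (coeff α (locM E P x2))) →
      (∀ α, Ge P 0 (coeff α (locM E P x3))) → (P = P1 → Ge P 1 (eval (ptM E P ξ1) x1)) →
      (P = P2 → Ge P 1 (eval (ptM E P ξ2) x2)) → Ge P (-(b1 + b2 + b3) P) u →
      C u * (x1 * x2 * x3) ∈ G P) →
    ∀ (P0 : Place ℂ K) (s0 : MvPolynomial (Vr r) K), IsMh (a1 + a2 + a3) s0 →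
    (∀ α, Ge P0 (-(b1 + b2 + b3) P0) (coeff α (locM E P0 s0))) →
    ∃ s, IsSecM E (a1 + a2 + a3) (b1 + b2 + b3) s ∧ (∀ P, P ≠ P0 → s ∈ G P) ∧ s - s0 ∈ G P0

/-- Package VA: the conditions for very ampleness (from CORE). -/
def S_VA : Prop := ∀ {K : Type} [Field K] [Algebra ℂ K] [IsFF ℂ K] {l : ℕ} {r : Fin l → ℕ}
    {W : Place ℂ K →₀ ℤ}, IsCanonical W → ∀ (E : ∀ j, Bundle K (r j)) (μ : Fin l → ℝ),
    (∀ j, 0 < r j) → (∀ j, SL (toBn (E j)) (μ j)) → ∀ (a1 a2 a3 : Fin l → ℕ)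
    (b1 b2 b3 : Place ℂ K →₀ ℤ), (∀ j, 0 < a1 j) → (∀ j, 0 < a2 j) →
    (0 < ∑ j, a1 j * μ j + ddeg b1) →
    (0 < ∑ j, a2 j * μ j + ddeg b2) → ((ddeg W : ℝ) < ∑ j, a3 j * μ j + ddeg b3) →
    VeryAmpleM E (a1 + a2 + a3) (b1 + b2 + b3)

/-- Package MIN: quotients of minimal slope. -/
def S_MIN : Prop := ∀ {K : Type} [Field K] [Algebra ℂ K] [IsFF ℂ K] {n : ℕ} (E : Bundle K n),
    0 < n → ∃ (R : ℕ) (Λ : Matrix (Fin n) (Fin R) K) (Y : Matrix (Fin R) (Fin n) K)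
      (d : Place ℂ K →₀ ℤ), 0 < R ∧ Y * Λ = 1 ∧ IsQuot E Λ d ∧ SL (toBn E) (ddeg d / R : ℝ)

/-- Package SEC: sections on the product of the quotients of minimal slope (from WRD). -/
def S_SEC : Prop := ∀ {K : Type} [Field K] [Algebra ℂ K] [IsFF ℂ K] {l : ℕ} {r R : Fin l → ℕ}
    (E : ∀ j, Bundle K (r j)) (μ : Fin l → ℝ), (∀ j, 0 < r j) → (∀ j, 0 < R j) →
    (∀ j, SL (toBn (E j)) (μ j)) → ∀ (Λ : ∀ j, Matrix (Fin (r j)) (Fin (R j)) K)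
    (Y : ∀ j, Matrix (Fin (R j)) (Fin (r j)) K) (d : Fin l → Place ℂ K →₀ ℤ),
    (∀ j, Y j * Λ j = 1) → (∀ j, IsQuot (E j) (Λ j) (d j)) → (∀ j, (ddeg (d j) : ℝ) = μ j * R j) →
    ∀ (S : Place ℂ K → ∀ j, Fin (R j) → Fin (r j)),
    (∀ P j, (((E j).B P * Λ j).submatrix (S P j) id).det ≠ 0 ∧
      P.ord (((E j).B P * Λ j).submatrix (S P j) id).det = -d j P) →
    ∀ (a : Fin l → ℕ) (N : Place ℂ K →₀ ℤ) (f : MvPolynomial (Vr R) K), IsMh a f → f ≠ 0 →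
    (∀ P α, Ge P (-N P) (coeff α
      (psM (fun j => (((E j).B P * Λ j).submatrix (S P j) id)⁻¹) f))) →
    0 ≤ ∑ j, a j * μ j + ddeg N

/-- Package GROW: growth (local at one point). -/
def S_GROW : Prop := ∀ {K : Type} [Field K] [Algebra ℂ K] [IsFF ℂ K] {l : ℕ} {R : Fin l → ℕ},
    (∀ j, 0 < R j) → ∀ (P : Place ℂ K) (t : K), P.ord t = 1 → ∀ (a : Fin l → ℕ)
    (v0 : MvPolynomial (Vr R) K) (v : Option (Fr R) → MvPolynomial (Vr R) K), IsMh a v0 →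
    (∀ k, IsMh a (v k)) → (∀ α, Ge P 0 (coeff α v0)) → (∀ k α, Ge P 0 (coeff α (v k))) →
    JET P t v0 v →
    ∃ M : ℕ, 0 < M ∧ ∃ f : MvPolynomial (Vr R) K, f ≠ 0 ∧ IsMh (M • a) f ∧
      (∀ α, Ge P 1 (coeff α f)) ∧
      f ∈ Submodule.span ℂ {g | ∃ w : Fin M → Option (Option (Fr R)),
        g = ∏ i, (w i).elim v0 v}

/-- Package JETS: the `1`-jets of the sections of a very ample line bundle. -/
def S_JETS : Prop := ∀ {K : Type} [Field K] [Algebra ℂ K] [IsFF ℂ K] {l : ℕ} {r R : Fin l → ℕ}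
    (E : ∀ j, Bundle K (r j)), (∀ j, 0 < R j) → ∀ (Λ : ∀ j, Matrix (Fin (r j)) (Fin (R j)) K)
    (P : Place ℂ K) (t : K) (d : Fin l → ℤ), P.ord t = 1 →
    (∀ j (S' : Fin (R j) → Fin (r j)), Ge P (-d j) (((E j).B P * Λ j).submatrix S' id).det) →
    ∀ (S : ∀ j, Fin (R j) → Fin (r j)),
    (∀ j, (((E j).B P * Λ j).submatrix (S j) id).det ≠ 0 ∧
      P.ord (((E j).B P * Λ j).submatrix (S j) id).det = -d j) →
    ∀ (a : Fin l → ℕ) (N : Place ℂ K →₀ ℤ), VeryAmpleM E a N →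
    ∃ (s0 : MvPolynomial (Vr r) K) (s : Option (Fr R) → MvPolynomial (Vr r) K),
      IsSecM E a N s0 ∧ (∀ k, IsSecM E a N (s k)) ∧
      JET P t (C (t ^ N P) * psM (fun j => Λ j * (((E j).B P * Λ j).submatrix (S j) id)⁻¹) s0)
        (fun k => C (t ^ N P) * psM (fun j => Λ j * (((E j).B P * Λ j).submatrix (S j) id)⁻¹) (s k))

/-- Package POS: ample line bundles are positive (from MIN, SEC, GROW, JETS). -/
def S_POS : Prop := ∀ {K : Type} [Field K] [Algebra ℂ K] [IsFF ℂ K] {l : ℕ} {r : Fin l → ℕ}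
    (E : ∀ j, Bundle K (r j)), (∀ j, 2 ≤ r j) → ∃ μ : Fin l → ℝ, (∀ j, SL (toBn (E j)) (μ j)) ∧
    ∀ (a : Fin l → ℕ) (b : Place ℂ K →₀ ℤ), IsAmpleM E a b →
      (∀ j, 0 < a j) ∧ 0 < ∑ j, a j * μ j + ddeg b

end Pool.Agent.Helper9.PP
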