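import Pool.Agent.Helper9.PP.Bil
import Pool.Agent.Helper9.PP.Pow

/-!
Project PP (helper9): package TEN.
-/

set_option autoImplicit false
set_option linter.unusedSectionVars false

namespace Pool.Agent.Helper9.PP

open FF Module Pool.Agent.Helper9.FJ
open scoped Kronecker

theorem det_mul_expand' {R : Type*} [CommRing R] {α : Type} [Fintype α] [DecidableEq α] {ρ : ℕ}
    (Y : Matrix (Fin ρ) α R) (N : Matrix α (Fin ρ) R) :
    (Y * N).det = ∑ S : Fin ρ → α, (∏ i, Y i (S i)) * (N.submatrix S id).det := by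
  classical
  have h1 := (Matrix.detRowAlternating (n := Fin ρ) (R := R)).toMultilinearMap.map_sum
    (fun (i : Fin ρ) (j : α) => Y i j • N j)
  have h2 : (fun i : Fin ρ => ∑ j : α, Y i j • N j) = (Y * N : Matrix (Fin ρ) (Fin ρ) R) := by
    funext i l
    rw [Finset.sum_apply, Matrix.mul_apply]
    rfl
  rw [h2] at h1
  have h3 : (Y * N).det = _ := h1
  rw [h3]
  refine Finset.sum_congr rfl fun S _ => ?_
  exact (Matrix.detRowAlternating (n := Fin ρ) (R := R)).toMultilinearMap.map_smul_univ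
    (fun i : Fin ρ => Y i (S i)) (fun i => N (S i))

/-- **Package TEN.** -/
theorem ten : S_TEN := by
  classical
  intro K _ _ _ ι κ _ _ _ _ F G μ ν hι hκ hF hG
  let H : Bn K (ι × κ) :=
    { B := fun P => F.B P ⊗ₖ G.B P
      det_ne := fun P => by
        rw [Matrix.det_kronecker]
        exact mul_ne_zero (pow_ne_zero _ (F.det_ne P)) (pow_ne_zero _ (G.det_ne P))
      fin := (F.fin.union G.fin).subset fun P hP => by
        by_contra hcon
        simp only [Set.mem_union, Set.mem_ofPred_eq, not_or, not_not] at hcon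
        apply hP
        rw [hcon.1, hcon.2, Matrix.one_kronecker_one] }
  have hH : ∀ P i j, H.B P i j = F.B P i.1 j.1 * G.B P i.2 j.2 := fun P i j => rfl
  refine ⟨H, fun P => rfl, fun ρ Λ d hρ hd => ?_⟩
  obtain ⟨F', hF', hF''⟩ := pow' F μ hι hF ρ
  obtain ⟨G', hG', hG''⟩ := pow' G ν hκ hG ρ
  obtain ⟨T, hT⟩ : ∃ T : Matrix (Fin ρ → ι) (Fin ρ → κ) K,
      ∀ I J, T I J = (Λ.submatrix (fun i => (I i, J i)) id).det := ⟨_, fun _ _ => rfl⟩
  have hval : ∀ P I J, (F'.B P * T * (G'.B P).transpose) I J =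
      ((H.B P * Λ).submatrix (fun i => (I i, J i)) id).det := by
    intro P I J
    have h1 : (H.B P * Λ).submatrix (fun i => (I i, J i)) id =
        (H.B P).submatrix (fun i => (I i, J i)) id * Λ := by
      ext i j
      simp [Matrix.mul_apply]
    rw [h1, det_mul_expand', Matrix.mul_apply]
    have h2 := Fintype.sum_equiv (Equiv.arrowProdEquivProdArrow (Fin ρ) (fun _ => ι) (fun _ => κ))
      (fun S : Fin ρ → ι × κ => (∏ i, (H.B P).submatrix (fun i => (I i, J i)) id i (S i)) *
        (Λ.submatrix S id).det)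
      (fun x : (Fin ρ → ι) × (Fin ρ → κ) => (∏ i, F.B P (I i) (x.1 i)) *
        (∏ i, G.B P (J i) (x.2 i)) * T x.1 x.2) (fun S => by
        rw [hT, ← Finset.prod_mul_distrib]
        rfl)
    rw [h2, Fintype.sum_prod_type_right]
    refine Finset.sum_congr rfl fun J' _ => ?_
    rw [Matrix.mul_apply, Finset.sum_mul]
    refine Finset.sum_congr rfl fun I' _ => ?_
    rw [hF', Matrix.transpose_apply, hG']
    ring
  have h1 := bil F' G' (ρ * μ) (ρ * ν) hF'' hG'' T ?_ d fun P I J => by
    rw [hval]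
    exact (hd P).1 _
  · linarith
  · intro h0
    obtain ⟨P, -⟩ := exists_place (k := ℂ) (K := K)
    obtain ⟨S, hS, -⟩ := (hd P).2
    apply hS
    have h2 := hval P (fun i => (S i).1) (fun i => (S i).2)
    rw [h0, Matrix.mul_zero, Matrix.zero_mul, Matrix.zero_apply] at h2
    exact h2.symm

end Pool.Agent.Helper9.PP
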